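import Mathlib

set_option autoImplicit false

namespace Pool.Agent.MP_27ef7a_al.H97

/-- polycyclic: a finite subnormal series from `1` to `G` with cyclic factors -/
def IsPolycyclic (G : Type) [Group G] : Prop :=
  ∃ (n : ℕ) (H : ℕ → Subgroup G), H 0 = ⊥ ∧ H n = ⊤ ∧
    ∀ i < n, H i ≤ H (i + 1) ∧ ∃ _ : ((H i).subgroupOf (H (i + 1))).Normal,
      IsCyclic (H (i + 1) ⧸ (H i).subgroupOf (H (i + 1)))

/-- polycyclic-by-finite -/
def IsPF (G : Type) [Group G] : Prop :=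
  ∃ (N : Subgroup G) (_ : N.Normal), IsPolycyclic N ∧ Finite (G ⧸ N)

/-- nilpotent-by-(polycyclic-by-finite) -/
def IsNPF (G : Type) [Group G] : Prop :=
  ∃ (K : Subgroup G) (_ : K.Normal), Group.IsNilpotent K ∧ IsPF (G ⧸ K)

/-- soluble-by-finite -/
def IsSolubleByFinite (G : Type) [Group G] : Prop :=
  ∃ (N : Subgroup G) (_ : N.Normal), Group.IsSolvable N ∧ Finite (G ⧸ N)

/-- the class `(N(PF), ∞)^*` -/
def InNPFInfStar (G : Type) [Group G] : Prop :=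
  ∀ S : Set G, S.Infinite → ∃ x ∈ S, ∃ y ∈ S, x ≠ y ∧
    IsNPF (Subgroup.closure ({x, y⁻¹ * x * y} : Set G))

end Pool.Agent.MP_27ef7a_al.H97
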