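import Pool.Agent.MP_27ef7a_al.H97.Ring
import Pool.Agent.MP_27ef7a_al.H97.Defs

/-!
The group of maps `y ↦ r + u * sh g y` of `R`, and its finitely generated subgroup `G`.
-/

set_option autoImplicit false

open scoped commutatorElement

namespace Pool.Agent.MP_27ef7a_al.H97

/-- affine maps twisted by translations -/
@[ext] structure Aff where
  r : R
  u : R
  g : V
  hu : u * u = 1

noncomputable instance : Mul Aff :=
  ⟨fun a b => ⟨a.r + a.u * sh a.g b.r, a.u * sh a.g b.u, a.g + b.g, by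
    rw [mul_mul_mul_comm, ← map_mul, a.hu, b.hu, map_one, one_mul]⟩⟩

noncomputable instance : One Aff := ⟨⟨0, 1, 0, one_mul _⟩⟩

noncomputable instance : Inv Aff :=
  ⟨fun a => ⟨-sh (-a.g) (a.u * a.r), sh (-a.g) a.u, -a.g, by rw [← map_mul, a.hu, map_one]⟩⟩

@[simp] theorem mul_r (a b : Aff) : (a * b).r = a.r + a.u * sh a.g b.r := rfl
@[simp] theorem mul_u (a b : Aff) : (a * b).u = a.u * sh a.g b.u := rfl
@[simp] theorem mul_g (a b : Aff) : (a * b).g = a.g + b.g := rfl
@[simp] theorem one_r : (1 : Aff).r = 0 := rfl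
@[simp] theorem one_u : (1 : Aff).u = 1 := rfl
@[simp] theorem one_g : (1 : Aff).g = 0 := rfl
@[simp] theorem inv_r (a : Aff) : a⁻¹.r = -sh (-a.g) (a.u * a.r) := rfl
@[simp] theorem inv_u (a : Aff) : a⁻¹.u = sh (-a.g) a.u := rfl
@[simp] theorem inv_g (a : Aff) : a⁻¹.g = -a.g := rfl

noncomputable instance : Group Aff := Group.ofLeftAxioms
  (fun a b c => by
    ext1
    · simp only [mul_r, mul_u, mul_g, map_add, map_mul, sh_sh]; ring
    · simp only [mul_u, mul_g, map_mul, sh_sh]; ring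
    · simp only [mul_g, add_assoc])
  (fun a => by ext1 <;> simp [sh_zero])
  (fun a => by
    ext1
    · simp
    · simp only [mul_u, inv_u, inv_g, one_u]
      rw [← map_mul, a.hu, map_one]
    · simp)

/-- translation by `r` -/
noncomputable def tau (r : R) : Aff := ⟨r, 1, 0, one_mul _⟩
/-- multiplication by `u` -/
noncomputable def mu (u : R) (hu : u * u = 1) : Aff := ⟨0, u, 0, hu⟩
/-- shift by `g` -/
noncomputable def shift (g : V) : Aff := ⟨0, 1, g, one_mul _⟩

theorem comm_eq (a b : Aff) (ha : a.g = 0) (hb : b.g = 0) :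
    ⁅a, b⁆ = tau (a.r * (1 - b.u) + b.r * (a.u - 1)) := by
  have h1 := a.hu
  have h2 := b.hu
  rw [commutatorElement_def]
  ext1
  · simp only [mul_r, mul_u, mul_g, inv_r, inv_u, inv_g, ha, hb, neg_zero, add_zero, sh_zero, tau]
    linear_combination (-(b.u * a.r) - b.u * b.u * b.r) * h1 - b.r * h2
  · simp only [mul_u, mul_g, inv_u, inv_g, ha, hb, neg_zero, add_zero, sh_zero, tau]
    linear_combination (b.u * b.u) * h1 + h2
  · simp [ha, hb, tau]

/-- projection to the lattice -/
noncomputable def proj : Aff →* Multiplicative V where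
  toFun a := Multiplicative.ofAdd a.g
  map_one' := rfl
  map_mul' _ _ := rfl

/-- translations by elements of an ideal -/
noncomputable def Tr (I : Ideal R) : Subgroup Aff where
  carrier := {a | a.r ∈ I ∧ a.u = 1 ∧ a.g = 0}
  one_mem' := ⟨zero_mem _, rfl, rfl⟩
  mul_mem' := by
    rintro a b ⟨h1, h2, h3⟩ ⟨h4, h5, h6⟩
    exact ⟨by simpa [h2, h3, sh_zero] using add_mem h1 h4, by simp [h2, h5], by simp [h3, h6]⟩
  inv_mem' := by
    rintro a ⟨h1, h2, h3⟩
    exact ⟨by simpa [h2, h3, sh_zero] using h1, by simp [h2], by simp [h3]⟩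

/-- affine maps whose linear part is `1` modulo an ideal -/
noncomputable def NL (I : Ideal R) : Subgroup Aff where
  carrier := {a | a.u - 1 ∈ I ∧ a.g = 0}
  one_mem' := ⟨by simp, rfl⟩
  mul_mem' := by
    rintro a b ⟨h1, h2⟩ ⟨h3, h4⟩
    refine ⟨?_, by simp [h2, h4]⟩
    have : (a * b).u - 1 = a.u * (b.u - 1) + (a.u - 1) := by
      simp only [mul_u, h2, sh_zero]; ring
    rw [this]
    exact add_mem (I.mul_mem_left _ h3) h1
  inv_mem' := by
    rintro a ⟨h1, h2⟩
    exact ⟨by simpa [h2, sh_zero] using h1, by simp [h2]⟩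

theorem tau_mem_Tr {I : Ideal R} {r : R} (h : r ∈ I) : tau r ∈ Tr I := ⟨h, rfl, rfl⟩

theorem Tr_bot : Tr ⊥ = ⊥ := by
  rw [eq_bot_iff]
  rintro a ⟨h1, h2, h3⟩
  rw [Subgroup.mem_bot]
  exact Aff.ext (Ideal.mem_bot.1 h1) h2 h3

theorem NL_lcs (I : Ideal R) (k : ℕ) : (NL I).lowerCentralSeries (k + 1) ≤ Tr (I ^ k) := by
  induction k with
  | zero =>
    rw [Subgroup.lowerCentralSeries_succ, Subgroup.commutator_le]
    intro a ha b hb
    rw [comm_eq a b ha.2 hb.2]
    exact tau_mem_Tr (by simp)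
  | succ k ih =>
    rw [Subgroup.lowerCentralSeries_succ, Subgroup.commutator_le]
    intro a ha b hb
    obtain ⟨h1, h2, h3⟩ := ih ha
    rw [comm_eq a b h3 hb.2, h2, sub_self, mul_zero, add_zero, Submodule.pow_succ]
    refine tau_mem_Tr (Ideal.mul_mem_mul h1 ?_)
    have := neg_mem hb.1
    rwa [neg_sub] at this

theorem NL_nilpotent {I : Ideal R} {m : ℕ} (h : I ^ m = ⊥) : Group.IsNilpotent (NL I) := by
  rw [Subgroup.isNilpotent_iff_lowerCentralSeries]
  refine ⟨m + 1, le_bot_iff.1 ((NL_lcs I m).trans ?_)⟩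
  rw [h, Tr_bot]

instance : Group.IsSolvable Aff := by
  refine ⟨3, le_bot_iff.1 ?_⟩
  have h1 : derivedSeries Aff 1 ≤ NL ⊤ := by
    rw [derivedSeries_succ, Subgroup.commutator_le]
    intro a _ b _
    exact ⟨trivial, by simp [commutatorElement_def]⟩
  have h2 : derivedSeries Aff 2 ≤ Tr ⊤ := by
    rw [derivedSeries_succ, Subgroup.commutator_le]
    intro a ha b hb
    rw [comm_eq a b (h1 ha).2 (h1 hb).2]
    exact tau_mem_Tr trivial
  rw [derivedSeries_succ, Subgroup.commutator_le, ← Tr_bot]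
  intro a ha b hb
  rw [comm_eq a b (h2 ha).2.2 (h2 hb).2.2, (h2 ha).2.1, (h2 hb).2.1]
  exact tau_mem_Tr (by simp)

theorem unit_sq (v : V) : (1 + x v) * (1 + x v) = 1 := by
  linear_combination x_sq v + x v * two_eq_zero

/-- multiplication by `1 + x_v` -/
noncomputable def m (v : V) : Aff := mu (1 + x v) (unit_sq v)

/-- the counterexample -/
noncomputable def GG : Subgroup Aff := Subgroup.closure {tau 1, m 0, shift (1, 0), shift (0, 1)}

theorem GG_fg : Group.FG GG := by
  rw [Group.fg_iff_subgroup_fg]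
  exact (Subgroup.fg_iff _).2 ⟨_, rfl, by simp⟩

/-- shifts as a homomorphism -/
noncomputable def shiftHom : Multiplicative V →* Aff where
  toFun g := shift g.toAdd
  map_one' := rfl
  map_mul' a b := by ext1 <;> simp [shift]

theorem shift_mem (g : V) : shift g ∈ GG := by
  have : Multiplicative.ofAdd g =
      Multiplicative.ofAdd ((1, 0) : V) ^ g.1 * Multiplicative.ofAdd ((0, 1) : V) ^ g.2 := by
    rw [← ofAdd_zsmul, ← ofAdd_zsmul, ← ofAdd_add]
    simp
  have h : shift g = shift (1, 0) ^ g.1 * shift (0, 1) ^ g.2 := by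
    have h2 := congrArg shiftHom this
    rw [map_mul, map_zpow, map_zpow] at h2
    exact h2
  rw [h]
  exact mul_mem (zpow_mem (Subgroup.subset_closure (by simp)) _)
    (zpow_mem (Subgroup.subset_closure (by simp)) _)

theorem tau_mem : tau 1 ∈ GG := Subgroup.subset_closure (by simp)

theorem m_mem (v : V) : m v ∈ GG := by
  have : m v = shift v * m 0 * (shift v)⁻¹ := by
    ext1 <;> simp [m, mu, shift, sh_x]
  rw [this]
  exact mul_mem (mul_mem (shift_mem v) (Subgroup.subset_closure (by simp))) (inv_mem (shift_mem v))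

theorem u_mem_J {a : Aff} (ha : a ∈ GG) : a.u - 1 ∈ J := by
  refine Subgroup.closure_induction (p := fun a _ => a.u - 1 ∈ J) ?_ ?_ ?_ ?_ ha
  · rintro a (rfl | rfl | rfl | rfl)
    · simp [tau]
    · have h0 : x 0 ∈ J := Ideal.subset_span ⟨0, rfl⟩
      simpa [m, mu] using h0
    · simp [shift]
    · simp [shift]
  · simp
  · intro a b _ _ h1 h2
    have : (a * b).u - 1 = a.u * sh a.g (b.u - 1) + (a.u - 1) := by
      simp only [mul_u, map_sub, map_one]; ring
    rw [this]
    exact add_mem (J.mul_mem_left _ (sh_mem_J _ h2)) h1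
  · intro a _ h
    have : a⁻¹.u - 1 = sh (-a.g) (a.u - 1) := by simp
    rw [this]
    exact sh_mem_J _ h

/-- elements supported on finitely many parallel lines -/
noncomputable def HL (F : Finset V) (w : V) : Subgroup Aff where
  carrier := {a | a.u - 1 ∈ JL F w ∧ ∃ n : ℤ, a.g = n • w}
  one_mem' := ⟨by simp, 0, by simp⟩
  mul_mem' := by
    rintro a b ⟨h1, n, h2⟩ ⟨h3, k, h4⟩
    refine ⟨?_, n + k, by simp only [mul_g, h2, h4, add_smul]⟩
    have : (a * b).u - 1 = a.u * sh a.g (b.u - 1) + (a.u - 1) := by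
      simp only [mul_u, map_sub, map_one]; ring
    rw [this, h2]
    exact add_mem (Ideal.mul_mem_left _ _ (sh_mem_JL _ h3)) h1
  inv_mem' := by
    rintro a ⟨h1, n, h2⟩
    refine ⟨?_, -n, by simp only [inv_g, h2, neg_smul]⟩
    have : a⁻¹.u - 1 = sh (-a.g) (a.u - 1) := by simp
    rw [this, h2, ← neg_smul]
    exact sh_mem_JL _ h1

theorem nilpotent_of_injective {A B : Type} [Group A] [Group B] (f : A →* B)
    (hf : Function.Injective f) [Group.IsNilpotent B] : Group.IsNilpotent A :=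
  (Group.isNilpotent_congr (MonoidHom.ofInjective hf)).2 inferInstance

theorem isPF_of_cyclic (Q : Type) [Group Q] [IsCyclic Q] : IsPF Q := by
  refine ⟨⊤, inferInstance, ⟨1, fun i => if i = 0 then ⊥ else ⊤, by simp, by simp, ?_⟩,
    inferInstance⟩
  intro i hi
  obtain rfl : i = 0 := by omega
  refine ⟨by simp, ?_⟩
  have : ∀ (A B : Subgroup (⊤ : Subgroup Q)), A = ⊥ → ∃ _ : (A.subgroupOf B).Normal,
      IsCyclic (B ⧸ A.subgroupOf B) := by
    rintro A B rfl
    exact ⟨inferInstance, isCyclic_of_surjective (QuotientGroup.mk' _) (QuotientGroup.mk'_surjective _)⟩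
  exact this _ _ (by simp)

theorem isNPF_of_hom {H : Type} [Group H] (f : H →* Aff) (hf : Function.Injective f)
    (F : Finset V) (w : V) (hH : ∀ h, f h ∈ HL F w) : IsNPF H := by
  obtain ⟨k, hk⟩ := JL_nilpotent F w
  have := NL_nilpotent hk
  refine ⟨(proj.comp f).ker, inferInstance, ?_, ?_⟩
  · let φ : (proj.comp f).ker →* NL (JL F w) :=
      (f.comp (Subgroup.subtype _)).codRestrict _ (fun h => ⟨(hH h).1, h.2⟩)
    refine nilpotent_of_injective φ fun a b hab => ?_
    exact Subtype.ext (hf (congrArg Subtype.val hab))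
  · have h1 : (proj.comp f).range ≤ Subgroup.zpowers (Multiplicative.ofAdd w) := by
      rintro _ ⟨h, rfl⟩
      obtain ⟨n, hn⟩ := (hH h).2
      refine ⟨n, ?_⟩
      simp only [← ofAdd_zsmul, ← hn]
      rfl
    have h2 : IsCyclic (proj.comp f).range := Subgroup.isCyclic_of_le h1
    have h3 : IsCyclic (H ⧸ (proj.comp f).ker) :=
      isCyclic_of_injective (QuotientGroup.quotientKerEquivRange (proj.comp f)).toMonoidHom
        (QuotientGroup.quotientKerEquivRange (proj.comp f)).injective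
    exact isPF_of_cyclic _

theorem pair_isNPF (a b : GG) : IsNPF (Subgroup.closure ({a, b⁻¹ * a * b} : Set GG)) := by
  classical
  obtain ⟨F₁, h₁⟩ := exists_JL_of_mem_J (u_mem_J a.2) a.1.g
  obtain ⟨F₂, h₂⟩ := exists_JL_of_mem_J (u_mem_J (b⁻¹ * a * b).2) a.1.g
  refine isNPF_of_hom (GG.subtype.comp (Subgroup.subtype _))
    (Subtype.val_injective.comp Subtype.val_injective) (F₁ ∪ F₂) a.1.g ?_
  have : Subgroup.closure ({a, b⁻¹ * a * b} : Set GG) ≤ (HL (F₁ ∪ F₂) a.1.g).comap GG.subtype := by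
    rw [Subgroup.closure_le]
    rintro c (rfl | rfl)
    · exact ⟨JL_mono Finset.subset_union_left _ h₁, 1, by simp⟩
    · exact ⟨JL_mono Finset.subset_union_right _ h₂, 1, by simp⟩
  exact fun h => this h.2

end Pool.Agent.MP_27ef7a_al.H97
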