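import Pool.Agent.MP_27ef7a_al.H97.Group

set_option autoImplicit false

open scoped commutatorElement

namespace Pool.Agent.MP_27ef7a_al.H97

/-- every subgroup of exponent two is finite -/
def Fin2 (G : Type) [Group G] : Prop :=
  ∀ (A : Type) [Group A] (f : A →* G), Function.Injective f → (∀ a : A, a * a = 1) → Finite A

theorem Fin2.of_finite (G : Type) [Group G] [Finite G] : Fin2 G :=
  fun _ _ f hf _ => Finite.of_injective f hf

theorem Fin2.of_cyclic (G : Type) [Group G] [IsCyclic G] : Fin2 G := by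
  intro A _ f hf hA
  have : IsCyclic A := isCyclic_of_injective f hf
  obtain ⟨g, hg⟩ := IsCyclic.exists_generator (α := A)
  have hfin : IsOfFinOrder g := isOfFinOrder_iff_pow_eq_one.2 ⟨2, two_pos, by rw [sq, hA]⟩
  have h1 : Finite (Subgroup.zpowers g) := finite_zpowers.2 hfin
  exact Finite.of_surjective (fun z : Subgroup.zpowers g => (z : A)) fun a => ⟨⟨a, hg a⟩, rfl⟩

theorem Fin2.of_injective {G H : Type} [Group G] [Group H] (φ : G →* H)
    (hφ : Function.Injective φ) (h : Fin2 H) : Fin2 G :=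
  fun A _ f hf hA => h A (φ.comp f) (hφ.comp hf) hA

theorem Fin2.ext {G : Type} [Group G] (N : Subgroup G) [N.Normal] (h1 : Fin2 N)
    (h2 : Fin2 (G ⧸ N)) : Fin2 G := by
  intro A _ f hf hA
  let π : A →* G ⧸ N := (QuotientGroup.mk' N).comp f
  rw [π.finite_iff_finite_ker_range]
  constructor
  · let φ : π.ker →* N := (f.comp (Subgroup.subtype _)).codRestrict _
      (fun a => (QuotientGroup.eq_one_iff _).1 a.2)
    refine h1 _ φ (fun a b hab => Subtype.ext (hf (congrArg Subtype.val hab))) fun a => ?_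
    exact Subtype.ext (hA a)
  · refine h2 _ (Subgroup.subtype _) Subtype.val_injective ?_
    rintro ⟨_, a, rfl⟩
    apply Subtype.ext
    change π a * π a = 1
    rw [← map_mul, hA, map_one]

theorem Fin2.of_polycyclic {G : Type} [Group G] (h : IsPolycyclic G) : Fin2 G := by
  obtain ⟨n, H, h0, hn, hs⟩ := h
  have key : ∀ i ≤ n, Fin2 (H i) := by
    intro i
    induction i with
    | zero =>
      intro _
      rw [h0]
      exact Fin2.of_finite _
    | succ i ih =>
      intro hi
      obtain ⟨hle, hN, hc⟩ := hs i (by omega)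
      refine Fin2.ext ((H i).subgroupOf (H (i + 1))) ?_ (Fin2.of_cyclic _)
      exact Fin2.of_injective (Subgroup.subgroupOfEquivOfLe hle).toMonoidHom
        (Subgroup.subgroupOfEquivOfLe hle).injective (ih (by omega))
  have := key n le_rfl
  rw [hn] at this
  exact Fin2.of_injective (Subgroup.topEquiv (G := G)).symm.toMonoidHom
    (Subgroup.topEquiv (G := G)).symm.injective this

theorem Fin2.of_PF {G : Type} [Group G] (h : IsPF G) : Fin2 G := by
  obtain ⟨N, hN, h1, h2⟩ := h
  exact Fin2.ext N (Fin2.of_polycyclic h1) (Fin2.of_finite _)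

/-- the multiplications -/
noncomputable def Mu : Subgroup Aff where
  carrier := {a | a.r = 0 ∧ a.g = 0}
  one_mem' := ⟨rfl, rfl⟩
  mul_mem' := by
    rintro a b ⟨h1, h2⟩ ⟨h3, h4⟩
    exact ⟨by simp [h1, h3], by simp [h2, h4]⟩
  inv_mem' := by
    rintro a ⟨h1, h2⟩
    exact ⟨by simp [h1], by simp [h2]⟩

theorem Mu_sq {a : Aff} (h : a ∈ Mu) : a * a = 1 := by
  ext1
  · simp [h.1]
  · simp [h.2, sh_zero, a.hu]
  · simp [h.2]

theorem lcs_mem (K : Subgroup Aff) (b : ℕ → Aff) (hb : ∀ k, b k ∈ K) (hb' : ∀ k, b k ∈ Mu)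
    (t : R) (ht : tau t ∈ K) (c : ℕ) :
    tau (t * ∏ k ∈ Finset.range c, (1 - (b k).u)) ∈ K.lowerCentralSeries c := by
  induction c with
  | zero => simpa using ht
  | succ c ih =>
    rw [Subgroup.lowerCentralSeries_succ]
    have := Subgroup.commutator_mem_commutator ih (hb c)
    rw [comm_eq _ _ rfl (hb' c).2] at this
    rw [Finset.prod_range_succ, ← mul_assoc]
    simpa [tau] using this

theorem not_isNPF : ¬ IsNPF GG := by
  classical
  rintro ⟨K, hK, hnil, hPF⟩
  have hfin := Fin2.of_PF hPF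
  let S : Subgroup (GG ⧸ K) := (Mu.comap GG.subtype).map (QuotientGroup.mk' K)
  have hS : Finite S := by
    refine hfin S (Subgroup.subtype _) Subtype.val_injective ?_
    rintro ⟨_, a, ha, rfl⟩
    apply Subtype.ext
    change QuotientGroup.mk' K a * QuotientGroup.mk' K a = 1
    rw [← map_mul, show a * a = 1 from Subtype.ext (Mu_sq ha), map_one]
  let mG : ℤ → GG := fun i => ⟨m (par i), m_mem _⟩
  have hmG : ∀ i, (mG i).1 ∈ Mu := fun i => ⟨rfl, rfl⟩
  let φ : ℤ → S := fun i => ⟨QuotientGroup.mk' K (mG i), mG i, hmG i, rfl⟩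
  obtain ⟨y, hy⟩ := Finite.exists_infinite_fiber φ
  let e : ℕ ↪ (φ ⁻¹' {y} : Set ℤ) := Infinite.natEmbedding _
  have he : ∀ k, (mG (e 0))⁻¹ * mG (e (k + 1)) ∈ K := by
    intro k
    have h1 : φ (e 0) = y := (e 0).2
    have h2 : φ (e (k + 1)) = y := (e (k + 1)).2
    exact QuotientGroup.eq.1 (congrArg Subtype.val (h1.trans h2.symm))
  let bG : ℕ → GG := fun k => (mG (e 0))⁻¹ * mG (e (k + 1))
  let b : ℕ → Aff := fun k => (bG k).1
  have hbMu : ∀ k, b k ∈ Mu := fun k => mul_mem (inv_mem (hmG _)) (hmG _)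
  let K' : Subgroup Aff := K.map GG.subtype
  have hbK : ∀ k, b k ∈ K' := fun k => ⟨bG k, he k, rfl⟩
  obtain ⟨c, hc⟩ := (Subgroup.isNilpotent_iff_lowerCentralSeries K).1 hnil
  have hc' : K'.lowerCentralSeries c = ⊥ := by
    rw [← Subgroup.map_lowerCentralSeries, hc, Subgroup.map_bot]
  have ht : tau (1 - (b 0).u) ∈ K' := by
    have h1 : ⁅(⟨tau 1, tau_mem⟩ : GG), bG 0⁆ ∈ K := by
      rw [commutatorElement_def]
      exact mul_mem (hK.conj_mem _ (he 0) _) (inv_mem (he 0))
    refine ⟨_, h1, ?_⟩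
    rw [map_commutatorElement]
    change ⁅tau 1, b 0⁆ = _
    rw [comm_eq _ _ rfl (hbMu 0).2]
    simp [tau]
  have h0 := lcs_mem K' (fun k => b (k + 1)) (fun k => hbK _) (fun k => hbMu _) _ ht c
  rw [hc', Subgroup.mem_bot] at h0
  have h1 : ∏ k ∈ Finset.range (c + 1), (1 - (b k).u) = 0 := by
    rw [Finset.prod_range_succ', mul_comm]
    exact congrArg Aff.r h0
  have h2 : ∀ k, kill (par (e 0)) (1 - (b k).u) = x (par (e (k + 1))) := by
    intro k
    have hne : par (e (k + 1)) ≠ par (e 0) := fun h =>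
      Nat.succ_ne_zero k (e.injective (Subtype.ext (par_injective h)))
    have : (b k).u = (1 + x (par (e 0))) * (1 + x (par (e (k + 1)))) := by
      simp [b, bG, mG, m, mu, sh_zero]
    rw [this, map_sub, map_mul, map_add, map_add, map_one, kill_self, kill_ne hne]
    linear_combination (-x (par (e (k + 1)))) * two_eq_zero
  have h3 : kill (par (e 0)) (∏ k ∈ Finset.range (c + 1), (1 - (b k).u)) = 0 := by
    rw [h1]; exact map_zero _
  rw [map_prod] at h3
  simp only [h2] at h3
  refine prod_par_ne_zero ((Finset.range (c + 1)).image fun k => (e (k + 1) : ℤ)) ?_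
  rw [Finset.prod_image, h3]
  intro i _ j _ h
  exact Nat.succ_injective (e.injective (Subtype.ext h))

end Pool.Agent.MP_27ef7a_al.H97
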