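import Mathlib

/-!
The ring `R = F₂[x_v : v ∈ ℤ²] / (x_v², x_u x_v x_w for collinear u, v, w)`.
-/

set_option autoImplicit false

namespace Pool.Agent.MP_27ef7a_al.H97

open MvPolynomial

/-- the lattice -/
abbrev V : Type := ℤ × ℤ

/-- collinearity determinant -/
def det (u v w : V) : ℤ := (v.1 - u.1) * (w.2 - u.2) - (v.2 - u.2) * (w.1 - u.1)

/-- polynomial ring -/
abbrev Pol : Type := MvPolynomial V (ZMod 2)

/-- relations -/
def rels : Set Pol :=
  {p | (∃ v, p = X v * X v) ∨ ∃ u v w, det u v w = 0 ∧ p = X u * X v * X w}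

/-- the ring -/
abbrev R : Type := Pol ⧸ Ideal.span rels

/-- generators -/
noncomputable def x (v : V) : R := Ideal.Quotient.mk _ (X v)

theorem x_sq (v : V) : x v * x v = 0 := by
  rw [x, ← map_mul, Ideal.Quotient.eq_zero_iff_mem]
  exact Ideal.subset_span (Or.inl ⟨v, rfl⟩)

theorem x_col {u v w : V} (h : det u v w = 0) : x u * x v * x w = 0 := by
  rw [x, x, x, ← map_mul, ← map_mul, Ideal.Quotient.eq_zero_iff_mem]
  exact Ideal.subset_span (Or.inr ⟨u, v, w, h, rfl⟩)

theorem two_eq_zero : (2 : R) = 0 := by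
  have : (2 : R) = algebraMap (ZMod 2) R 2 := (map_ofNat _ 2).symm
  rw [this, show (2 : ZMod 2) = 0 from rfl, map_zero]

/-- endomorphisms of `R` given on generators -/
noncomputable def liftR (y : V → R) (h2 : ∀ v, y v * y v = 0)
    (h3 : ∀ u v w, det u v w = 0 → y u * y v * y w = 0) : R →ₐ[ZMod 2] R :=
  Ideal.Quotient.liftₐ _ (aeval y) (by
    intro a ha
    refine Submodule.span_induction (p := fun a _ => aeval y a = 0) ?_ ?_ ?_ ?_ ha
    · rintro p (⟨v, rfl⟩ | ⟨u, v, w, h, rfl⟩)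
      · simp [h2]
      · simp [h3 u v w h]
    · simp
    · intro a b _ _ ha hb
      simp [ha, hb]
    · intro a b _ hb
      simp [hb])

theorem liftR_x (y : V → R) (h2 : ∀ v, y v * y v = 0)
    (h3 : ∀ u v w, det u v w = 0 → y u * y v * y w = 0) (v : V) : liftR y h2 h3 (x v) = y v := by
  simp [liftR, x]

theorem R_ext {f g : R →ₐ[ZMod 2] R} (h : ∀ v, f (x v) = g (x v)) : f = g := by
  refine Ideal.Quotient.algHom_ext _ (MvPolynomial.algHom_ext fun v => ?_)
  exact h v

/-- translation -/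
noncomputable def sh (g : V) : R →ₐ[ZMod 2] R :=
  liftR (fun v => x (v + g)) (fun _ => x_sq _) (fun u v w h => x_col (by
    rw [← h]; simp [det]))

theorem sh_x (g v : V) : sh g (x v) = x (v + g) := liftR_x _ _ _ _

theorem sh_zero (r : R) : sh 0 r = r := by
  have : sh 0 = AlgHom.id _ _ := R_ext fun v => by simp [sh_x]
  rw [this]; rfl

theorem sh_sh (g g' : V) (r : R) : sh g (sh g' r) = sh (g + g') r := by
  have : (sh g).comp (sh g') = sh (g + g') := R_ext fun v => by
    simp only [AlgHom.comp_apply, sh_x]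
    congr 1
    abel
  exact AlgHom.congr_fun this r

/-- killing one generator -/
noncomputable def kill (p : V) : R →ₐ[ZMod 2] R :=
  liftR (fun v => if v = p then 0 else x v)
    (fun v => by split_ifs <;> simp [x_sq])
    (fun u v w h => by split_ifs <;> simp [x_col h])

theorem kill_self (p : V) : kill p (x p) = 0 := by simp [kill, liftR_x]
theorem kill_ne {p v : V} (h : v ≠ p) : kill p (x v) = x v := by simp [kill, liftR_x, h]

/-- points of a parabola -/
def par (i : ℤ) : V := (i, i ^ 2)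

theorem par_injective : Function.Injective par := fun _ _ h => congrArg Prod.fst h

theorem prod_par_ne_zero (s : Finset ℤ) : ∏ i ∈ s, x (par i) ≠ 0 := by
  classical
  intro h
  simp only [x] at h
  rw [← map_prod, Ideal.Quotient.eq_zero_iff_mem] at h
  let m : V →₀ ℕ := ∑ i ∈ s, Finsupp.single (par i) 1
  have hm : ∏ i ∈ s, (X (par i) : Pol) = monomial m 1 := by
    simp only [m, monomial_sum_one]
    rfl
  let Bad : Set (V →₀ ℕ) := {b | (∃ v, b = Finsupp.single v 1 + Finsupp.single v 1) ∨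
    ∃ u v w, det u v w = 0 ∧ b = Finsupp.single u 1 + Finsupp.single v 1 + Finsupp.single w 1}
  have hle : Ideal.span rels ≤ Ideal.span ((fun b => monomial b (1 : ZMod 2)) '' Bad) := by
    refine Ideal.span_mono ?_
    rintro p (⟨v, rfl⟩ | ⟨u, v, w, h, rfl⟩)
    · exact ⟨_, Or.inl ⟨v, rfl⟩, by simp only [X, monomial_mul, mul_one]⟩
    · exact ⟨_, Or.inr ⟨u, v, w, h, rfl⟩, by simp only [X, monomial_mul, mul_one]⟩
  have h1 := mem_ideal_span_monomial_image.1 (hle h) m (by rw [hm]; simp)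
  have hm1 : ∀ v, m v ≤ 1 := by
    intro v
    simp only [m, Finsupp.finsetSum_apply, Finsupp.single_apply]
    rw [Finset.sum_boole]
    refine Finset.card_le_one.2 fun a ha b hb => par_injective ?_
    rw [(Finset.mem_filter.1 ha).2, (Finset.mem_filter.1 hb).2]
  have hm2 : ∀ v, 1 ≤ m v → ∃ i, par i = v := by
    intro v hv
    by_contra hne
    push Not at hne
    simp [m, Finsupp.finsetSum_apply, Finsupp.single_apply, hne] at hv
  obtain ⟨b, (⟨v, rfl⟩ | ⟨u, v, w, hdet, rfl⟩), hb⟩ := h1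
  · have := (hb v).trans (hm1 v)
    simp at this
  · have hu := hb u
    have hv := hb v
    have hw := hb w
    have hu1 := hm1 u
    have hv1 := hm1 v
    have hw1 := hm1 w
    simp only [Finsupp.add_apply, Finsupp.single_apply, if_true] at hu hv hw
    obtain ⟨i, rfl⟩ := hm2 u (by omega)
    obtain ⟨j, rfl⟩ := hm2 v (by omega)
    obtain ⟨k, rfl⟩ := hm2 w (by omega)
    have hij : i ≠ j := by
      rintro rfl
      simp at hu
      omega
    have hik : i ≠ k := by
      rintro rfl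
      simp at hu
      omega
    have hjk : j ≠ k := by
      rintro rfl
      simp at hv
      omega
    have : (j - i) * (k - i) * (k - j) = 0 := by
      rw [← hdet]; simp only [det, par]; ring
    simp only [mul_eq_zero, sub_eq_zero] at this
    rcases this with (h | h) | h
    · exact hij h.symm
    · exact hik h.symm
    · exact hjk h.symm

/-- the ideal generated by the variables on finitely many parallel lines -/
noncomputable def JL (F : Finset V) (w : V) : Ideal R :=
  Ideal.span {r | ∃ f ∈ F, ∃ n : ℤ, r = x (f + n • w)}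

theorem JL_mono {F F' : Finset V} (h : F ⊆ F') (w : V) : JL F w ≤ JL F' w :=
  Ideal.span_mono (by
    rintro r ⟨f, hf, n, rfl⟩
    exact ⟨f, h hf, n, rfl⟩)

theorem JL_single_pow (f w : V) : JL {f} w ^ 3 = ⊥ := by
  rw [pow_three', JL, Ideal.span_mul_span', Ideal.span_mul_span', Ideal.span_eq_bot]
  rintro r ⟨_, ⟨_, ⟨f₁, h₁, a, rfl⟩, _, ⟨f₂, h₂, b, rfl⟩, rfl⟩, _, ⟨f₃, h₃, c, rfl⟩, rfl⟩
  rw [Finset.mem_singleton] at h₁ h₂ h₃
  subst h₁ h₂ h₃
  refine x_col ?_
  simp only [det, Prod.fst_add, Prod.snd_add, Prod.smul_fst, Prod.smul_snd, smul_eq_mul]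
  ring

theorem JL_nilpotent (F : Finset V) (w : V) : ∃ m, JL F w ^ m = ⊥ := by
  classical
  induction F using Finset.induction_on with
  | empty => exact ⟨1, by simp [JL]⟩
  | insert f F _ ih =>
    obtain ⟨m, hm⟩ := ih
    have h1 : (JL {f} w ⊔ JL F w) ^ (3 + m) ≤ ⊥ := by
      refine Ideal.sup_pow_add_le_pow_sup_pow.trans ?_
      rw [JL_single_pow, hm, bot_sup_eq]
    refine ⟨3 + m, le_bot_iff.1 ?_⟩
    refine (Ideal.pow_right_mono ?_ _).trans h1
    rw [JL, Ideal.span_le]
    rintro r ⟨g, hg, n, rfl⟩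
    rcases Finset.mem_insert.1 hg with rfl | hg
    · exact Ideal.mem_sup_left (Ideal.subset_span ⟨g, Finset.mem_singleton_self _, n, rfl⟩)
    · exact Ideal.mem_sup_right (Ideal.subset_span ⟨g, hg, n, rfl⟩)

theorem sh_mem_JL {F : Finset V} {w : V} (k : ℤ) {r : R} (hr : r ∈ JL F w) :
    sh (k • w) r ∈ JL F w := by
  refine Submodule.span_induction (p := fun a _ => sh (k • w) a ∈ JL F w) ?_ ?_ ?_ ?_ hr
  · rintro _ ⟨f, hf, n, rfl⟩
    rw [sh_x]
    exact Ideal.subset_span ⟨f, hf, n + k, by rw [add_smul, add_assoc]⟩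
  · simp
  · intro a b _ _ ha hb
    rw [map_add]
    exact add_mem ha hb
  · intro a b _ hb
    rw [smul_eq_mul, map_mul]
    exact Ideal.mul_mem_left _ _ hb

/-- the ideal generated by all the variables -/
noncomputable def J : Ideal R := Ideal.span (Set.range x)

theorem sh_mem_J (g : V) {r : R} (hr : r ∈ J) : sh g r ∈ J := by
  refine Submodule.span_induction (p := fun a _ => sh g a ∈ J) ?_ ?_ ?_ ?_ hr
  · rintro _ ⟨v, rfl⟩
    rw [sh_x]
    exact Ideal.subset_span ⟨_, rfl⟩
  · simp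
  · intro a b _ _ ha hb
    rw [map_add]
    exact add_mem ha hb
  · intro a b _ hb
    rw [smul_eq_mul, map_mul]
    exact Ideal.mul_mem_left _ _ hb

theorem exists_JL_of_mem_J {r : R} (hr : r ∈ J) (w : V) : ∃ F, r ∈ JL F w := by
  classical
  refine Submodule.span_induction (p := fun a _ => ∃ F, a ∈ JL F w) ?_ ?_ ?_ ?_ hr
  · rintro _ ⟨v, rfl⟩
    exact ⟨{v}, Ideal.subset_span ⟨v, Finset.mem_singleton_self _, 0, by simp⟩⟩
  · exact ⟨∅, zero_mem _⟩
  · rintro a b _ _ ⟨F, hF⟩ ⟨F', hF'⟩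
    exact ⟨F ∪ F', add_mem (JL_mono Finset.subset_union_left w hF)
      (JL_mono Finset.subset_union_right w hF')⟩
  · rintro a b _ ⟨F, hF⟩
    exact ⟨F, Ideal.mul_mem_left _ _ hF⟩

end Pool.Agent.MP_27ef7a_al.H97
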